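import Pool.Agent.Helper8.TY.BLast
import Pool.Agent.Gen.TY.B1.U00
import Pool.Agent.Gen.TY.B1.U01
import Pool.Agent.Gen.TY.B1.U02
import Pool.Agent.Gen.TY.B1.U03
import Pool.Agent.Helper59.GC.Tie

/-!
MP_8ee768_co, project TH-Y', stage B1b: all pairs of the 814 roots are dead (the hypothesis `hB1b`
of `no_cover`); `hB1p` is `posB_lane`, `hB1t` is `roots_types` (Helper8/TY/BLast.lean).
-/

set_option autoImplicit false
set_option maxRecDepth 100000

namespace Pool.Agent.Gen.TY.B1

open Pool.Agent.Helper97.CV Pool.Agent.Helper79.CV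
open Pool.Agent.Helper33.TY Pool.Agent.Helper8.TY
open Pool.Agent.Helper49.TY (QP)
open Pool.Agent.Helper7.TB (typ nl lane nlF)
open Pool.Agent.Gen.TY.B1.Pos (roots)
open Pool.Agent.Helper67.GT (NT gG gP gN gPiece)
open Pool.Agent.Helper67.TY (GluedOK)
open Pool.Agent.Helper59.GC (gC tied_all)
open Pool.Agent.Helper59.TY (gath tA tB)
open Pool.Agent.Helper28.TY (rlanes)

/-- all units -/
def us : List (ℕ × ℕ × ℕ × ℕ) := U00.us ++ (U01.us ++ (U02.us ++ U03.us))

theorem us_all : AllU us :=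
  U00.us_all.append (U01.us_all.append (U02.us_all.append U03.us_all))

theorem us_cov : covL nlF us roots 0 = true := by decide +kernel

theorem tie_gC : ∀ t < NT, gath (tA (gC t)) (tB (gC t)) = gG t := tied_all

/-- **`hB1b`** from the glued table -/
theorem hB1b (hG : GluedOK NT gG (rlanes gPiece gP gN)) : ∀ x ∈ roots, ∀ j < nl x.1,
    PDead QP (typ x.1 * 2 ^ 330 + lane x.1 x.2) (cone 11 (fam 11 4 (lane x.1 j))) :=
  kill_lane ⟨gG, hG, tie_gC⟩ us_all us_cov

end Pool.Agent.Gen.TY.B1
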